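import Mathlib
import Pool.Agent.Y685.SY.Stm2

/-!
# The mollified 2-form is tamed by `Q`, defect version (helper500, job SY2-LOW2)

Adaptation of `Pool/Agent/Y454/SY/Low.lean` of helper454.
-/

set_option maxSynthPendingDepth 3

open scoped Manifold ContDiff Topology ENNReal
open MeasureTheory Set Metric

namespace Pool.Agent.Y500.SY

open Pool.Agent.Y685.SY

variable {E : Type} [NormedAddCommGroup E] [InnerProductSpace ℝ E] [FiniteDimensional ℝ E]

omit [FiniteDimensional ℝ E] in
theorem defect_le (c : ℝ) (b : E →L[ℝ] E →L[ℝ] ℝ) (Q : E →L[ℝ] E) (u : E) :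
    ENNReal.ofReal (c * ‖u‖ ^ 2 - b u (Q u)) ≤ defect c b Q * ENNReal.ofReal (‖u‖ ^ 2) := by
  rcases eq_or_ne u 0 with rfl | hu
  · simp
  have hu0 : 0 < ‖u‖ := norm_pos_iff.2 hu
  set u1 : E := ‖u‖⁻¹ • u with hu1
  have hn : ‖u1‖ = 1 := by
    rw [hu1, norm_smul, norm_inv, norm_norm, inv_mul_cancel₀ hu0.ne']
  have hb : b u1 (Q u1) = ‖u‖⁻¹ ^ 2 * b u (Q u) := by
    rw [hu1]
    simp only [map_smul, smul_apply, smul_eq_mul]
    ring
  have h1 : ENNReal.ofReal (c - b u1 (Q u1)) ≤ defect c b Q := by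
    unfold defect
    exact le_iSup₂ (f := fun (u : E) (_ : ‖u‖ = 1) => ENNReal.ofReal (c - b u (Q u))) u1 hn
  calc ENNReal.ofReal (c * ‖u‖ ^ 2 - b u (Q u))
      = ENNReal.ofReal ((c - b u1 (Q u1)) * ‖u‖ ^ 2) := by
        congr 1
        rw [hb]
        field_simp
    _ = ENNReal.ofReal (c - b u1 (Q u1)) * ENNReal.ofReal (‖u‖ ^ 2) :=
        ENNReal.ofReal_mul' (by positivity)
    _ ≤ _ := by gcongr

variable [MeasurableSpace E] [BorelSpace E]

theorem low2_aux (θ : E → E →L[ℝ] E →L[ℝ] ℝ) (Q : E →L[ℝ] E) (x : E)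
    (ρ : ContDiffBump (0 : E)) (c κ : ℝ) (hin : ρ.rIn = ρ.rOut / 2) (hκ : 0 ≤ κ)
    (hθ : IntegrableOn θ (ball x ρ.rOut))
    (hκ' : ∫⁻ z in ball x ρ.rOut, defect c (θ z) Q
      ≤ ENNReal.ofReal (κ * ρ.rOut ^ Module.finrank ℝ E)) (v : E) :
    (c - 2 ^ Module.finrank ℝ E / volume.real (ball (0 : E) 1) * κ) * ‖v‖ ^ 2
      ≤ ∫ z, ρ.normed volume (x - z) * θ z v (Q v) := by
  set R := ρ.rOut with hR
  set m := Module.finrank ℝ E with hm
  set V := volume.real (ball (0 : E) 1) with hV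
  set C := 2 ^ m / V with hC
  have hR0 : 0 < R := ρ.rOut_pos
  have hV0 : 0 < V :=
    ENNReal.toReal_pos (measure_ball_pos _ _ one_pos).ne' measure_ball_lt_top.ne
  have hRm : 0 < R ^ m := pow_pos hR0 m
  set w : E → ℝ := fun z => ρ.normed volume (x - z) with hw
  -- the weight
  have w0 : ∀ z, 0 ≤ w z := fun z => ρ.nonneg_normed _
  have w1 : ∀ z, w z ≤ C / R ^ m := by
    intro z
    have h := ρ.normed_le_div_measure_closedBall_rOut (μ := volume) 2
      (by rw [hin]; linarith) (x - z)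
    rw [Measure.addHaar_real_closedBall _ _ ρ.rOut_pos.le] at h
    refine h.trans (le_of_eq ?_)
    rw [hC, div_div, mul_comm V]
  have w2 : ∀ z, z ∉ ball x R → w z = 0 := by
    intro z hz
    have h : x - z ∉ Function.support (ρ.normed volume) := by
      rw [ρ.support_normed_eq, mem_ball_zero_iff]
      intro h
      apply hz
      rw [mem_ball, dist_comm, dist_eq_norm]
      exact h
    exact Function.notMem_support.1 h
  have wc : Continuous w := ρ.continuous_normed.comp (continuous_const.sub continuous_id)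
  have w3 : ∫ z in ball x R, w z = 1 := by
    rw [setIntegral_eq_integral_of_forall_compl_eq_zero w2, hw,
      integral_sub_left_eq_self (fun y => ρ.normed volume y) volume x]
    exact ρ.integral_normed
  have wb : ∀ᵐ z ∂(volume.restrict (ball x R)), ‖w z‖ ≤ C / R ^ m :=
    Filter.Eventually.of_forall fun z => by
      rw [Real.norm_of_nonneg (w0 z)]
      exact w1 z
  have wm : AEStronglyMeasurable w (volume.restrict (ball x R)) := wc.aestronglyMeasurable
  have hwI : IntegrableOn w (ball x R) :=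
    (wc.continuousOn.integrableOn_compact (isCompact_closedBall x R)).mono_set
      ball_subset_closedBall
  -- the form
  set g : E → ℝ := fun z => θ z v (Q v) with hg
  have gI : IntegrableOn g (ball x R) := by
    let L : (E →L[ℝ] E →L[ℝ] ℝ) →L[ℝ] ℝ :=
      (ContinuousLinearMap.apply ℝ ℝ (Q v)).comp (ContinuousLinearMap.apply ℝ (E →L[ℝ] ℝ) v)
    exact L.integrable_comp hθ
  -- the error
  set N : E → ℝ := fun z => max (c * ‖v‖ ^ 2 - g z) 0 with hN
  have N0 : ∀ z, 0 ≤ N z := fun z => le_max_right _ _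
  have cI : IntegrableOn (fun _ : E => c * ‖v‖ ^ 2) (ball x R) :=
    integrableOn_const measure_ball_lt_top.ne
  have NI : IntegrableOn N (ball x R) := (cI.sub gI).sup (integrable_zero _ _ _)
  have Nm : AEStronglyMeasurable N (volume.restrict (ball x R)) := NI.aestronglyMeasurable
  have Nb : ∫ z in ball x R, N z ≤ ‖v‖ ^ 2 * (κ * R ^ m) := by
    rw [integral_eq_lintegral_of_nonneg_ae (Filter.Eventually.of_forall N0) Nm]
    refine ENNReal.toReal_le_of_le_ofReal (by positivity) ?_
    calc ∫⁻ z in ball x R, ENNReal.ofReal (N z)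
        ≤ ∫⁻ z in ball x R, defect c (θ z) Q * ENNReal.ofReal (‖v‖ ^ 2) := by
          refine lintegral_mono fun z => ?_
          have h : ENNReal.ofReal (N z) = ENNReal.ofReal (c * ‖v‖ ^ 2 - g z) := by
            rw [hN]
            simp only [ENNReal.ofReal_max, ENNReal.ofReal_zero]
            exact max_eq_left (by positivity)
          rw [h]
          exact defect_le c (θ z) Q v
      _ = (∫⁻ z in ball x R, defect c (θ z) Q) * ENNReal.ofReal (‖v‖ ^ 2) :=
          lintegral_mul_const' _ _ ENNReal.ofReal_ne_top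
      _ ≤ ENNReal.ofReal (κ * R ^ m) * ENNReal.ofReal (‖v‖ ^ 2) := by gcongr
      _ = ENNReal.ofReal (‖v‖ ^ 2 * (κ * R ^ m)) := by
          rw [mul_comm, ← ENNReal.ofReal_mul (by positivity)]
  have hgw : IntegrableOn (fun z => w z * g z) (ball x R) := gI.bdd_mul wm wb
  have hNw : IntegrableOn (fun z => w z * N z) (ball x R) := NI.bdd_mul wm wb
  have e1 : ∫ z, w z * g z = ∫ z in ball x R, w z * g z :=
    (setIntegral_eq_integral_of_forall_compl_eq_zero fun z hz => by
      rw [w2 z hz, zero_mul]).symm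
  have hpt : ∀ z, c * ‖v‖ ^ 2 * w z - w z * N z ≤ w z * g z := by
    intro z
    have h4 : c * ‖v‖ ^ 2 - N z ≤ g z := by
      have : c * ‖v‖ ^ 2 - g z ≤ N z := le_max_left _ _
      linarith
    calc c * ‖v‖ ^ 2 * w z - w z * N z = w z * (c * ‖v‖ ^ 2 - N z) := by ring
      _ ≤ w z * g z := mul_le_mul_of_nonneg_left h4 (w0 z)
  have e2 : ∫ z in ball x R, (c * ‖v‖ ^ 2 * w z - w z * N z) ≤
      ∫ z in ball x R, w z * g z :=
    integral_mono ((hwI.const_mul _).sub hNw) hgw hpt
  rw [integral_sub (hwI.const_mul _) hNw, integral_const_mul, w3, mul_one] at e2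
  have e3 : ∫ z in ball x R, w z * N z ≤ C / R ^ m * (‖v‖ ^ 2 * (κ * R ^ m)) := by
    calc ∫ z in ball x R, w z * N z ≤ ∫ z in ball x R, C / R ^ m * N z :=
          integral_mono hNw (NI.const_mul _) fun z =>
            mul_le_mul_of_nonneg_right (w1 z) (N0 z)
      _ = C / R ^ m * ∫ z in ball x R, N z := integral_const_mul _ _
      _ ≤ _ := mul_le_mul_of_nonneg_left Nb (by positivity)
  have e4 : C / R ^ m * (‖v‖ ^ 2 * (κ * R ^ m)) = ‖v‖ ^ 2 * (C * κ) := by field_simp
  rw [e4] at e3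
  rw [e1]
  linarith

/-- **LOW2.** The mollified 2-form is tamed by `Q`, if the defect is small in the mean. -/
theorem t_LOW2 (E : Type) [NormedAddCommGroup E] [InnerProductSpace ℝ E] [FiniteDimensional ℝ E]
    [MeasurableSpace E] [BorelSpace E] : S_LOW2 E := by
  refine ⟨2 ^ Module.finrank ℝ E / volume.real (ball (0 : E) 1), ?_, ?_⟩
  · have hV0 : 0 < volume.real (ball (0 : E) 1) :=
      ENNReal.toReal_pos (measure_ball_pos _ _ one_pos).ne' measure_ball_lt_top.ne
    positivity
  · intro θ Q x ρ c κ h1 h2 h3 h4 v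
    exact low2_aux θ Q x ρ c κ h1 h2 h3 h4 v

end Pool.Agent.Y500.SY
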